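import Pool.Agent.H27.HB.TX
import Pool.Agent.H33.HQ.TR
import Pool.Agent.H58.HQ.PL
import Pool.Agent.H12.HQ.RAD

/-!
# The integrals of the Jerison-Lee function (row JJI)
-/

set_option autoImplicit false

namespace Pool.Agent.H49.HB
open MeasureTheory Set Filter Topology Pool.Agent.H80.HS Pool.Agent.H93.HQ Pool.Agent.H27.HB
open scoped ContDiff ENNReal

/-- from a positive integral to the lower integral -/
theorem lint_of_int {μ : Measure ℝ} {f : ℝ → ℝ} {c : ℝ} (hc : 0 < c) (hf : 0 ≤ᵐ[μ] f)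
    (h : ∫ x, f x ∂μ = c) : ∫⁻ x, ENNReal.ofReal (f x) ∂μ = ENNReal.ofReal c := by
  have hint : Integrable f μ := by
    by_contra hcon
    rw [integral_undef hcon] at h
    exact hc.ne h
  rw [← ofReal_integral_eq_lintegral_ofReal hint hf, h]

/-- the Gamma integral -/
theorem lint_gamma {m c : ℝ} (hm : 0 < m) (hc : 0 < c) :
    ∫⁻ u in Ioi (0 : ℝ), ENNReal.ofReal (u ^ (m - 1) * Real.exp (-(c * u))) =
      ENNReal.ofReal (Real.Gamma m * c ^ (-m)) := by
  refine lint_of_int ?_ ?_ ?_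
  · exact mul_pos (Real.Gamma_pos_of_pos hm) (Real.rpow_pos_of_pos hc _)
  · refine (ae_restrict_iff' measurableSet_Ioi).2 (ae_of_all _ fun x hx => ?_)
    exact mul_nonneg (Real.rpow_nonneg (le_of_lt hx) _) (Real.exp_pos _).le
  · rw [Real.integral_rpow_mul_exp_neg_mul_Ioi hm hc, one_div, Real.inv_rpow hc.le,
      ← Real.rpow_neg hc.le, mul_comm]

/-- the integral over `t` -/
theorem lint_t {A s : ℝ} (hA : 0 < A) (hs : 1 / 2 < s) :
    ∫⁻ t : ℝ, ENNReal.ofReal ((A ^ 2 + t ^ 2) ^ (-s)) =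
      ENNReal.ofReal (Real.sqrt Real.pi * Real.Gamma (s - 1 / 2) / Real.Gamma s *
        A ^ (-(2 * s - 1))) := by
  have hs0 : 0 < s := by linarith
  have hG : 0 < Real.Gamma s := Real.Gamma_pos_of_pos hs0
  have key : ENNReal.ofReal (Real.Gamma s) *
      ∫⁻ t : ℝ, ENNReal.ofReal ((A ^ 2 + t ^ 2) ^ (-s)) =
      ENNReal.ofReal (Real.sqrt Real.pi * Real.Gamma (s - 1 / 2) * A ^ (-(2 * s - 1))) := by
    rw [← lintegral_const_mul' _ _ ENNReal.ofReal_ne_top]
    have e1 : ∀ t : ℝ, ENNReal.ofReal (Real.Gamma s) * ENNReal.ofReal ((A ^ 2 + t ^ 2) ^ (-s)) =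
        ∫⁻ u in Ioi (0 : ℝ),
          ENNReal.ofReal (u ^ (s - 1) * Real.exp (-((A ^ 2 + t ^ 2) * u))) := by
      intro t
      rw [lint_gamma hs0 (by positivity), ENNReal.ofReal_mul hG.le]
    simp only [e1]
    rw [lintegral_lintegral_swap]
    · have e2 : ∀ u ∈ Ioi (0 : ℝ),
          ∫⁻ t : ℝ, ENNReal.ofReal (u ^ (s - 1) * Real.exp (-((A ^ 2 + t ^ 2) * u))) =
          ENNReal.ofReal (Real.sqrt Real.pi) *
            ENNReal.ofReal (u ^ ((s - 1 / 2) - 1) * Real.exp (-(A ^ 2 * u))) := by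
        intro u hu
        have hu' : 0 < u := hu
        have e3 : ∀ t : ℝ, ENNReal.ofReal (u ^ (s - 1) * Real.exp (-((A ^ 2 + t ^ 2) * u))) =
            ENNReal.ofReal (u ^ (s - 1) * Real.exp (-(A ^ 2 * u))) *
              ENNReal.ofReal (Real.exp (-u * t ^ 2)) := by
          intro t
          rw [← ENNReal.ofReal_mul (by positivity)]
          congr 1
          rw [mul_assoc, ← Real.exp_add]
          congr 2
          ring
        simp only [e3]
        rw [lintegral_const_mul' _ _ ENNReal.ofReal_ne_top,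
          lint_of_int (Real.sqrt_pos.2 (div_pos Real.pi_pos hu'))
            (ae_of_all _ fun t => (Real.exp_pos _).le) (integral_gaussian u),
          ← ENNReal.ofReal_mul (by positivity), ← ENNReal.ofReal_mul (by positivity)]
        congr 1
        rw [Real.sqrt_div Real.pi_pos.le, Real.sqrt_eq_rpow u]
        have e4 : u ^ ((s - 1 / 2) - 1) = u ^ (s - 1) / u ^ (1 / 2 : ℝ) := by
          rw [← Real.rpow_sub hu']
          congr 1
          ring
        rw [e4]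
        ring
      rw [setLIntegral_congr_fun measurableSet_Ioi e2,
        lintegral_const_mul' _ _ ENNReal.ofReal_ne_top, lint_gamma (by linarith) (by positivity),
        ← ENNReal.ofReal_mul (Real.sqrt_nonneg _)]
      congr 1
      have e5 : (A ^ 2) ^ (-(s - 1 / 2)) = A ^ (-(2 * s - 1)) := by
        rw [← Real.rpow_natCast A 2, ← Real.rpow_mul hA.le]
        congr 1
        push_cast
        ring
      rw [e5]
      ring
    · refine Measurable.aemeasurable ?_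
      unfold Function.uncurry
      fun_prop
  have h1 : ENNReal.ofReal (Real.sqrt Real.pi * Real.Gamma (s - 1 / 2) * A ^ (-(2 * s - 1))) =
      ENNReal.ofReal (Real.Gamma s) * ENNReal.ofReal (Real.sqrt Real.pi *
        Real.Gamma (s - 1 / 2) / Real.Gamma s * A ^ (-(2 * s - 1))) := by
    rw [← ENNReal.ofReal_mul hG.le]
    congr 1
    field_simp
  rw [h1] at key
  exact (ENNReal.mul_right_inj (ENNReal.ofReal_pos.2 hG).ne' ENNReal.ofReal_ne_top).1 key

/-- the Gaussian integral over the plane with a power of the norm -/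
theorem lint_g (n : ℕ) (hn : 1 ≤ n) {a u : ℝ} (ha : 0 ≤ a) (hu : 0 < u) :
    ∫⁻ z : V n × V n, ENNReal.ofReal (Real.sqrt (‖z.1‖ ^ 2 + ‖z.2‖ ^ 2) ^ a *
      Real.exp (-(u * (‖z.1‖ ^ 2 + ‖z.2‖ ^ 2)))) =
      ENNReal.ofReal (Real.pi ^ n / Real.Gamma n * Real.Gamma (n + a / 2) *
        u ^ (-((n : ℝ) + a / 2))) := by
  have hn' : (1 : ℝ) ≤ n := by exact_mod_cast hn
  have hPL := Pool.Agent.H58.HQ.PL.pf_PL Pool.Agent.H12.HQ.pf_RAD n hn
    (fun r => ENNReal.ofReal (r ^ a * Real.exp (-(u * r ^ 2)))) (by fun_prop)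
  have e1 : ∀ z : V n × V n, ENNReal.ofReal (Real.sqrt (‖z.1‖ ^ 2 + ‖z.2‖ ^ 2) ^ a *
      Real.exp (-(u * (‖z.1‖ ^ 2 + ‖z.2‖ ^ 2)))) =
      (fun r => ENNReal.ofReal (r ^ a * Real.exp (-(u * r ^ 2))))
        (Real.sqrt (‖z.1‖ ^ 2 + ‖z.2‖ ^ 2)) := by
    intro z
    simp only
    rw [Real.sq_sqrt (by positivity)]
  rw [lintegral_congr e1, hPL]
  have hG : 0 < Real.Gamma n := Real.Gamma_pos_of_pos (by linarith)
  have hG2 : 0 < Real.Gamma (n + a / 2) := Real.Gamma_pos_of_pos (by linarith)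
  have e2 : ∫⁻ r in Ioi (0 : ℝ), ENNReal.ofReal (r ^ a * Real.exp (-(u * r ^ 2))) *
      ENNReal.ofReal (r ^ (2 * (n : ℝ) - 1)) =
      ∫⁻ r in Ioi (0 : ℝ), ENNReal.ofReal (r ^ (a + 2 * n - 1) * Real.exp (-u * r ^ (2 : ℝ))) := by
    refine setLIntegral_congr_fun measurableSet_Ioi fun r hr => ?_
    have hr' : 0 < r := hr
    rw [← ENNReal.ofReal_mul (by positivity)]
    congr 1
    have e3 : r ^ (a + 2 * (n : ℝ) - 1) = r ^ a * r ^ (2 * (n : ℝ) - 1) := by
      rw [← Real.rpow_add hr']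
      congr 1
      ring
    rw [e3, Real.rpow_two]
    have e4 : -u * r ^ 2 = -(u * r ^ 2) := by ring
    rw [e4]
    ring
  rw [e2]
  have h := integral_rpow_mul_exp_neg_mul_rpow (p := 2) (q := a + 2 * (n : ℝ) - 1) (b := u)
    (by norm_num) (by linarith) hu
  have e5 : (a + 2 * (n : ℝ) - 1 + 1) / 2 = n + a / 2 := by ring
  have e6 : -(a + 2 * (n : ℝ) - 1 + 1) / 2 = -((n : ℝ) + a / 2) := by ring
  rw [e5, e6] at h
  have hpos : 0 < u ^ (-((n : ℝ) + a / 2)) * (1 / 2) * Real.Gamma (n + a / 2) := by positivity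
  rw [lint_of_int hpos ?_ h, ← ENNReal.ofReal_mul (by positivity)]
  · congr 1
    ring
  · refine (ae_restrict_iff' measurableSet_Ioi).2 (ae_of_all _ fun x hx => ?_)
    exact mul_nonneg (Real.rpow_nonneg (le_of_lt hx) _) (Real.exp_pos _).le

/-- the integral over the plane -/
theorem lint_z (n : ℕ) (hn : 1 ≤ n) {a m : ℝ} (ha : 0 ≤ a) (hm : 0 < m - n - a / 2) :
    ∫⁻ z : V n × V n, ENNReal.ofReal (Real.sqrt (‖z.1‖ ^ 2 + ‖z.2‖ ^ 2) ^ a *
      (1 + (‖z.1‖ ^ 2 + ‖z.2‖ ^ 2)) ^ (-m)) =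
      ENNReal.ofReal (Real.pi ^ n / Real.Gamma n *
        (Real.Gamma (n + a / 2) * Real.Gamma (m - n - a / 2) / Real.Gamma m)) := by
  have hn' : (1 : ℝ) ≤ n := by exact_mod_cast hn
  have hm0 : 0 < m := by linarith
  have hG : 0 < Real.Gamma m := Real.Gamma_pos_of_pos hm0
  have hG1 : 0 < Real.Gamma n := Real.Gamma_pos_of_pos (by linarith)
  have hG2 : 0 < Real.Gamma (n + a / 2) := Real.Gamma_pos_of_pos (by linarith)
  have hG3 : 0 < Real.Gamma (m - n - a / 2) := Real.Gamma_pos_of_pos hm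
  have key : ENNReal.ofReal (Real.Gamma m) *
      ∫⁻ z : V n × V n, ENNReal.ofReal (Real.sqrt (‖z.1‖ ^ 2 + ‖z.2‖ ^ 2) ^ a *
      (1 + (‖z.1‖ ^ 2 + ‖z.2‖ ^ 2)) ^ (-m)) =
      ENNReal.ofReal (Real.pi ^ n / Real.Gamma n *
        (Real.Gamma (n + a / 2) * Real.Gamma (m - n - a / 2))) := by
    rw [← lintegral_const_mul' _ _ ENNReal.ofReal_ne_top]
    have e1 : ∀ z : V n × V n, ENNReal.ofReal (Real.Gamma m) *
        ENNReal.ofReal (Real.sqrt (‖z.1‖ ^ 2 + ‖z.2‖ ^ 2) ^ a *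
          (1 + (‖z.1‖ ^ 2 + ‖z.2‖ ^ 2)) ^ (-m)) =
        ∫⁻ u in Ioi (0 : ℝ), ENNReal.ofReal (Real.sqrt (‖z.1‖ ^ 2 + ‖z.2‖ ^ 2) ^ a *
          (u ^ (m - 1) * Real.exp (-((1 + (‖z.1‖ ^ 2 + ‖z.2‖ ^ 2)) * u)))) := by
      intro z
      have e2 : ∀ u : ℝ, ENNReal.ofReal (Real.sqrt (‖z.1‖ ^ 2 + ‖z.2‖ ^ 2) ^ a *
          (u ^ (m - 1) * Real.exp (-((1 + (‖z.1‖ ^ 2 + ‖z.2‖ ^ 2)) * u)))) =
          ENNReal.ofReal (Real.sqrt (‖z.1‖ ^ 2 + ‖z.2‖ ^ 2) ^ a) *
          ENNReal.ofReal (u ^ (m - 1) * Real.exp (-((1 + (‖z.1‖ ^ 2 + ‖z.2‖ ^ 2)) * u))) :=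
        fun u => ENNReal.ofReal_mul (by positivity)
      simp only [e2]
      rw [lintegral_const_mul' _ _ ENNReal.ofReal_ne_top, lint_gamma hm0 (by positivity),
        ← ENNReal.ofReal_mul hG.le, ← ENNReal.ofReal_mul (by positivity)]
      congr 1
      ring
    simp only [e1]
    rw [lintegral_lintegral_swap]
    · have e3 : ∀ u ∈ Ioi (0 : ℝ),
          ∫⁻ z : V n × V n, ENNReal.ofReal (Real.sqrt (‖z.1‖ ^ 2 + ‖z.2‖ ^ 2) ^ a *
          (u ^ (m - 1) * Real.exp (-((1 + (‖z.1‖ ^ 2 + ‖z.2‖ ^ 2)) * u)))) =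
          ENNReal.ofReal (Real.pi ^ n / Real.Gamma n * Real.Gamma (n + a / 2)) *
            ENNReal.ofReal (u ^ ((m - n - a / 2) - 1) * Real.exp (-(1 * u))) := by
        intro u hu
        have hu' : 0 < u := hu
        have e4 : ∀ z : V n × V n, ENNReal.ofReal (Real.sqrt (‖z.1‖ ^ 2 + ‖z.2‖ ^ 2) ^ a *
            (u ^ (m - 1) * Real.exp (-((1 + (‖z.1‖ ^ 2 + ‖z.2‖ ^ 2)) * u)))) =
            ENNReal.ofReal (u ^ (m - 1) * Real.exp (-(1 * u))) *
            ENNReal.ofReal (Real.sqrt (‖z.1‖ ^ 2 + ‖z.2‖ ^ 2) ^ a *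
              Real.exp (-(u * (‖z.1‖ ^ 2 + ‖z.2‖ ^ 2)))) := by
          intro z
          rw [← ENNReal.ofReal_mul (by positivity)]
          congr 1
          have e5 : Real.exp (-((1 + (‖z.1‖ ^ 2 + ‖z.2‖ ^ 2)) * u)) =
              Real.exp (-(1 * u)) * Real.exp (-(u * (‖z.1‖ ^ 2 + ‖z.2‖ ^ 2))) := by
            rw [← Real.exp_add]
            congr 1
            ring
          rw [e5]
          ring
        simp only [e4]
        rw [lintegral_const_mul' _ _ ENNReal.ofReal_ne_top, lint_g n hn ha hu',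
          ← ENNReal.ofReal_mul (by positivity), ← ENNReal.ofReal_mul (by positivity)]
        congr 1
        have e6 : u ^ ((m - n - a / 2) - 1) = u ^ (m - 1) * u ^ (-((n : ℝ) + a / 2)) := by
          rw [← Real.rpow_add hu']
          congr 1
          ring
        rw [e6]
        ring
      rw [setLIntegral_congr_fun measurableSet_Ioi e3,
        lintegral_const_mul' _ _ ENNReal.ofReal_ne_top, lint_gamma hm one_pos,
        ← ENNReal.ofReal_mul (by positivity), Real.one_rpow]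
      congr 1
      ring
    · refine Measurable.aemeasurable ?_
      unfold Function.uncurry
      fun_prop
  have h1 : ENNReal.ofReal (Real.pi ^ n / Real.Gamma n *
        (Real.Gamma (n + a / 2) * Real.Gamma (m - n - a / 2))) =
      ENNReal.ofReal (Real.Gamma m) * ENNReal.ofReal (Real.pi ^ n / Real.Gamma n *
        (Real.Gamma (n + a / 2) * Real.Gamma (m - n - a / 2) / Real.Gamma m)) := by
    rw [← ENNReal.ofReal_mul hG.le]
    congr 1
    field_simp
  rw [h1] at key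
  exact (ENNReal.mul_right_inj (ENNReal.ofReal_pos.2 hG).ne' ENNReal.ofReal_ne_top).1 key

theorem pf_JJI : T_JJI := by
  intro n a s hn ha hs
  have hn' : (1 : ℝ) ≤ n := by exact_mod_cast hn
  have hs2 : 1 / 2 < s := by linarith
  have hG : 0 < Real.Gamma s := Real.Gamma_pos_of_pos (by linarith)
  have hG1 : 0 < Real.Gamma (s - 1 / 2) := Real.Gamma_pos_of_pos (by linarith)
  have hG2 : 0 < Real.Gamma n := Real.Gamma_pos_of_pos (by linarith)
  have hG3 : 0 < Real.Gamma (n + a / 2) := Real.Gamma_pos_of_pos (by linarith)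
  have hG4 : 0 < Real.Gamma (2 * s - 1 - n - a / 2) := Real.Gamma_pos_of_pos hs
  have hG5 : 0 < Real.Gamma (2 * s - 1) := Real.Gamma_pos_of_pos (by linarith)
  have hmz : Measurable (fun z : H n => mz z ^ a) := by
    unfold mz Pool.Agent.H93.HQ.sq
    fun_prop
  have hww : Measurable (fun z : H n => ww z ^ (-s)) := by
    unfold ww Pool.Agent.H93.HQ.sq
    fun_prop
  have hm : Measurable (fun z : H n => mz z ^ a * ww z ^ (-s)) := hmz.mul hww
  have hnn : ∀ z : H n, 0 ≤ mz z ^ a * ww z ^ (-s) := by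
    intro z
    have h1 : 0 ≤ mz z := Real.sqrt_nonneg _
    have h2 : 0 ≤ ww z := by
      unfold ww
      positivity
    exact mul_nonneg (Real.rpow_nonneg h1 _) (Real.rpow_nonneg h2 _)
  have hJ : 0 ≤ JJ n a s := by
    unfold JJ
    positivity
  have hmain : ∫⁻ z : H n, ENNReal.ofReal (mz z ^ a * ww z ^ (-s)) =
      ENNReal.ofReal (JJ n a s) := by
    rw [Pool.Agent.H33.HQ.TR_tonelli _ hm.ennreal_ofReal]
    have e1 : ∀ x y : V n, ∫⁻ t : ℝ, ENNReal.ofReal (mz ((x, y, t) : H n) ^ a *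
        ww ((x, y, t) : H n) ^ (-s)) =
        ENNReal.ofReal (Real.sqrt Real.pi * Real.Gamma (s - 1 / 2) / Real.Gamma s) *
          ENNReal.ofReal (Real.sqrt (‖x‖ ^ 2 + ‖y‖ ^ 2) ^ a *
            (1 + (‖x‖ ^ 2 + ‖y‖ ^ 2)) ^ (-(2 * s - 1))) := by
      intro x y
      have e2 : ∀ t : ℝ, ENNReal.ofReal (mz ((x, y, t) : H n) ^ a *
          ww ((x, y, t) : H n) ^ (-s)) =
          ENNReal.ofReal (Real.sqrt (‖x‖ ^ 2 + ‖y‖ ^ 2) ^ a) *
            ENNReal.ofReal (((1 + (‖x‖ ^ 2 + ‖y‖ ^ 2)) ^ 2 + t ^ 2) ^ (-s)) := by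
        intro t
        rw [← ENNReal.ofReal_mul (by positivity)]
        rfl
      simp only [e2]
      rw [lintegral_const_mul' _ _ ENNReal.ofReal_ne_top, lint_t (by positivity) hs2,
        ← ENNReal.ofReal_mul (by positivity), ← ENNReal.ofReal_mul (by positivity)]
      congr 1
      ring
    simp only [e1]
    have hg : Measurable (fun z : V n × V n => ENNReal.ofReal
        (Real.sqrt (‖z.1‖ ^ 2 + ‖z.2‖ ^ 2) ^ a *
          (1 + (‖z.1‖ ^ 2 + ‖z.2‖ ^ 2)) ^ (-(2 * s - 1)))) := by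
      fun_prop
    have e3 : ∫⁻ x : V n, ∫⁻ y : V n,
        ENNReal.ofReal (Real.sqrt Real.pi * Real.Gamma (s - 1 / 2) / Real.Gamma s) *
          ENNReal.ofReal (Real.sqrt (‖x‖ ^ 2 + ‖y‖ ^ 2) ^ a *
            (1 + (‖x‖ ^ 2 + ‖y‖ ^ 2)) ^ (-(2 * s - 1))) =
        ENNReal.ofReal (Real.sqrt Real.pi * Real.Gamma (s - 1 / 2) / Real.Gamma s) *
          ∫⁻ z : V n × V n, ENNReal.ofReal (Real.sqrt (‖z.1‖ ^ 2 + ‖z.2‖ ^ 2) ^ a *
            (1 + (‖z.1‖ ^ 2 + ‖z.2‖ ^ 2)) ^ (-(2 * s - 1))) := by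
      rw [← lintegral_const_mul' _ _ ENNReal.ofReal_ne_top, Measure.volume_eq_prod,
        lintegral_prod _ (hg.const_mul _).aemeasurable]
    rw [e3, lint_z n hn ha (m := 2 * s - 1) hs, ← ENNReal.ofReal_mul (by positivity)]
    congr 1
    unfold JJ
    ring
  constructor
  · refine ⟨hm.aestronglyMeasurable, ?_⟩
    rw [hasFiniteIntegral_iff_ofReal (ae_of_all _ hnn), hmain]
    exact ENNReal.ofReal_lt_top
  · rw [integral_eq_lintegral_of_nonneg_ae (ae_of_all _ hnn) hm.aestronglyMeasurable, hmain,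
      ENNReal.toReal_ofReal hJ]

end Pool.Agent.H49.HB
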